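import Pool.Agent.WETC.Limit

/-!
# Realising structures by unions of towers of fields
-/

namespace Pool.Agent.WETC

open Pool.Agent.Hhelper2 Pool.Agent.Hhelper2.QuadExt Pool.Agent.Hhelper2.FieldAx
open Pool.Agent.KRad

universe u

/-- One stage of the tower. -/
structure Stage (Ω : Type u) [Field Ω] (T : QStr.{u})
    (P : ∀ (E : Type u) [Field E], (SqClass E →* T.G) → Prop) where
  /-- the field -/
  E : Type u
  [fld : Field E]
  /-- the embedding -/
  ι : E →+* Ω
  /-- the projection of square classes -/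
  π : SqClass E →* T.G
  hP : P E π

attribute [instance] Stage.fld

/-- If every field with the property `P` has an extension with the property `P` in which all
classes in the kernel of `π` become trivial, then the structure `T` is realised by a field. -/
theorem realise (T : QStr.{u}) (P : ∀ (E : Type u) [Field E], (SqClass E →* T.G) → Prop)
    (h1 : ∀ (E : Type u) [Field E] (π : SqClass E →* T.G), P E π → Function.Surjective π ∧
      (∀ x y, FieldSplit E x y → T.Split (π x) (π y)) ∧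
      (∀ a b, T.Split a b → ∃ x y, π x = a ∧ π y = b ∧ FieldSplit E x y) ∧
      π (sqClass (-1)) = T.neg)
    (h2 : ∀ (E : Type u) [Field E] (π : SqClass E →* T.G), P E π →
      ∃ (E' : Type u) (_ : Field E') (j : E →+* E') (π' : SqClass E' →* T.G), P E' π' ∧
        j.IsIntegral ∧ (∀ x, π' (mp j x) = π x) ∧ ∀ x, π x = 1 → mp j x = 1)
    (F : Type u) [Field F] (π : SqClass F →* T.G) (hF : P F π) :
    ∃ (K : Type u) (_ : Field K) (_ : F →+* K), Nonempty (T.Iso (QStr.ofField K)) := by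
  let Ω := AlgebraicClosure F
  have hstep : ∀ s : Stage Ω T P, ∃ (s' : Stage Ω T P) (j : s.E →+* s'.E),
      s'.ι.comp j = s.ι ∧ (∀ x, s'.π (mp j x) = s.π x) ∧ ∀ x, s.π x = 1 → mp j x = 1 := by
    intro s
    obtain ⟨E', _, j, π', hP', hint, hc, hk⟩ := h2 s.E s.π s.hP
    let _ : Algebra s.E E' := j.toAlgebra
    let _ : Algebra s.E Ω := s.ι.toAlgebra
    have halg : Algebra.IsAlgebraic s.E E' := by
      constructor
      intro x
      exact IsIntegral.isAlgebraic (hint x)
    let φ : E' →ₐ[s.E] Ω := IsAlgClosed.lift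
    refine ⟨⟨E', φ.toRingHom, π', hP'⟩, j, ?_, hc, hk⟩
    ext x
    exact φ.commutes x
  choose nxt hn using hstep
  obtain ⟨S, hS0, hS⟩ : ∃ S : ℕ → Stage Ω T P, S 0 = ⟨F, algebraMap F Ω, π, hF⟩ ∧
      ∀ n, S (n + 1) = nxt (S n) :=
    ⟨fun n => Nat.rec ⟨F, algebraMap F Ω, π, hF⟩ (fun _ s => nxt s) n, rfl, fun _ => rfl⟩
  have hj : ∀ n, ∃ j : (S n).E →+* (S (n + 1)).E, (S (n + 1)).ι.comp j = (S n).ι ∧
      (∀ x, (S (n + 1)).π (mp j x) = (S n).π x) ∧ ∀ x, (S n).π x = 1 → mp j x = 1 := by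
    intro n
    rw [hS n]
    exact hn (S n)
  choose j hj1 hj2 hj3 using hj
  obtain ⟨g1, -, g3, g4⟩ := h1 (S 0).E (S 0).π (S 0).hP
  obtain ⟨K, hK, f, h⟩ := limit (Ω := Ω) T (fun n => (S n).E) j (fun n => (S n).ι) hj1
    (fun n => (S n).π) g1 hj2 hj3
    (fun n x y h => (h1 (S n).E (S n).π (S n).hP).2.1 x y h) g3 g4
  refine ⟨K, hK, ?_, h⟩
  rw [hS0] at f
  exact f

end Pool.Agent.WETC
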