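import Pool.Agent.Hhelper69.BlkStep
import Pool.Agent.WETC.Realise

/-!
# Prime factors of the structure of a field are structures of fields
-/

namespace Pool.Agent.WETC

open Pool.Agent.Hhelper2 Pool.Agent.Hhelper2.QuadExt Pool.Agent.Hhelper2.FieldAx
open Pool.Agent.Hhelper2.Tower Pool.Agent.KRad Pool.Agent.Hhelper69.Blk
open Additive Module

universe u

/-- The property of the fields of the tower. -/
def PB (T : QStr.{u}) (E : Type u) [Field E] (π : SqClass E →* T.G) : Prop :=
  (2 : E) ≠ 0 ∧ Finite (SqClass E) ∧ Function.Surjective π ∧ π (sqClass (-1)) = T.neg ∧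
  ∃ B C : Submodule (ZMod 2) (VV E), IsBlk E B C ∧ (∀ x, x ∈ C ↔ π (toMul x) = 1) ∧
    ∀ x ∈ B, ∀ y ∈ B, Sp E x y ↔ T.Split (π (toMul x)) (π (toMul y))

theorem pb_facts (T : QStr.{u}) (E : Type u) [Field E] (π : SqClass E →* T.G) (h : PB T E π) :
    Function.Surjective π ∧ (∀ x y, FieldSplit E x y → T.Split (π x) (π y)) ∧
      (∀ a b, T.Split a b → ∃ x y, π x = a ∧ π y = b ∧ FieldSplit E x y) ∧
      π (sqClass (-1)) = T.neg := by
  obtain ⟨h2, hf, hs, hn, B, C, ⟨hcompl, hadd, -⟩, hC, hSp⟩ := h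
  have hdec : ∀ x : SqClass E, ∃ b ∈ B, ∃ c ∈ C, ofMul x = b + c ∧ π x = π (toMul b) := by
    intro x
    obtain ⟨b, hb, c, hc, hx⟩ := Submodule.mem_sup.1
      (show ofMul x ∈ B ⊔ C by rw [hcompl.sup_eq_top]; exact Submodule.mem_top)
    refine ⟨b, hb, c, hc, hx.symm, ?_⟩
    have h1 : x = toMul b * toMul c := congrArg toMul hx.symm
    rw [h1, map_mul, (hC c).1 hc, mul_one]
  refine ⟨hs, ?_, ?_, hn⟩
  · intro x y hxy
    obtain ⟨b, hb, c, hc, hx, hπ⟩ := hdec x
    obtain ⟨b', hb', c', hc', hy, hπ'⟩ := hdec y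
    rw [hπ, hπ', ← hSp b hb b' hb']
    obtain ⟨Q, _, _, _, β, hβ, symm, -⟩ := exists_symbol E h2
    have h3 : Sp E (ofMul x) (ofMul y) := hxy
    rw [hx, hy, ← hβ, beta_zero_iff hβ symm hadd hb hb' hc hc'] at h3
    exact (hβ _ _).1 h3.1
  · intro a a' haa
    obtain ⟨x, rfl⟩ := hs a
    obtain ⟨y, rfl⟩ := hs a'
    obtain ⟨b, hb, c, hc, hx, hπ⟩ := hdec x
    obtain ⟨b', hb', c', hc', hy, hπ'⟩ := hdec y
    rw [hπ, hπ', ← hSp b hb b' hb'] at haa
    exact ⟨toMul b, toMul b', hπ.symm, hπ'.symm, haa⟩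

/-- One quadratic extension. -/
theorem pb_step (T : QStr.{u}) (E : Type u) [Field E]
    (π : SqClass E →* T.G) (h : PB T E π) (a : SqClass E) (ha : π a = 1) :
    ∃ (E' : Type u) (_ : Field E') (j : E →+* E') (π' : SqClass E' →* T.G), PB T E' π' ∧
        j.IsIntegral ∧ (∀ x, π' (mp j x) = π x) ∧ mp j a = 1 := by
  by_cases ha1 : a = 1
  · refine ⟨E, inferInstance, RingHom.id E, π, h, ?_, ?_, ?_⟩
    · exact (RingHom.id E).isIntegral_of_surjective Function.surjective_id
    · intro x; rw [mp_id]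
    · rw [mp_id, ha1]
  obtain ⟨h2, hf, hs, hn, B, C, hBC, hC, hSp⟩ := h
  obtain ⟨a₀, rfl⟩ := exists_rep a
  have hns : ¬ ∃ t : E, (a₀ : E) = t ^ 2 := fun h => ha1 ((one_iff a₀).2 h)
  have hfact : Fact (∀ r : E, r ^ 2 ≠ (a₀ : E) + 0 * r) :=
    ⟨fun r hr => hns ⟨r, by rw [hr]; ring⟩⟩
  let E' := QuadraticAlgebra E (a₀ : E) 0
  have hfin : finrank E E' = 2 := QuadraticAlgebra.finrank_eq_two ..
  have hα : (⟨0, 1⟩ : E') ^ 2 = algebraMap E E' (a₀ : E) := by
    rw [← elt_sqrt (a := (a₀ : E)) (1 : E), one_pow, mul_one]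
  have haC : ofMul (sqClass a₀) ∈ C := (hC _).2 ha
  obtain ⟨q, hq, -⟩ := exists_QL h2 hfin a₀ _ hα hns
  obtain ⟨B', C', hBC', hres, hnB, hsurj, hinj, hrn, hSp'⟩ :=
    blk_step h2 hfin a₀ _ hα hns hBC haC
  have hdisj : ∀ x, x ∈ B → x ∈ C → x = 0 := by
    intro x hx hx'
    have := hBC.1.disjoint
    rw [Submodule.disjoint_def] at this
    exact this x hx hx'
  let p : VV E' →ₗ[ZMod 2] VV E' := Submodule.projection B' C' hBC'.1
  have hp : ∀ x ∈ B', p x = x := fun x hx => Submodule.projection_apply_of_mem_left hBC'.1 hx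
  have hp0 : ∀ x, p x = 0 ↔ x ∈ C' := fun x => by
    have h1 := Submodule.projectionOnto_apply_eq_zero_iff hBC'.1 (x := x)
    rw [← h1]
    show ((Submodule.projectionOnto B' C' hBC'.1 x : B') : VV E') = 0 ↔ _
    exact Submodule.coe_eq_zero
  have hpm : ∀ x, p x ∈ B' := fun x => Submodule.projection_apply_mem hBC'.1 x
  let φ : VV E' →ₗ[ZMod 2] VV E := (lin (gnm E E')).comp p
  have hφB : ∀ x, φ x ∈ B := fun x => hnB _ (hpm x)
  have hφ0 : ∀ x, φ x = 0 ↔ x ∈ C' := by
    intro x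
    rw [← hp0]
    constructor
    · intro h
      exact hinj _ (hpm x) h
    · intro h
      show lin (gnm E E') (p x) = 0
      rw [h, map_zero]
  have hφres : ∀ b ∈ B, φ (lin (gres E E') b) = b := by
    intro b hb
    obtain ⟨x, hx, rfl⟩ := hsurj b hb
    have h1 : φ (lin (gres E E') (lin (gnm E E') x) + x) = 0 := (hφ0 _).2 (hrn x hx)
    rw [map_add] at h1
    rw [Codim.eq_of_add_eq_zero h1]
    show lin (gnm E E') (p x) = _
    rw [hp x hx]
  let π' : SqClass E' →* T.G := π.comp (MonoidHom.toAdditive.symm φ.toAddMonoidHom)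
  have hπ' : ∀ x : SqClass E', π' x = π (toMul (φ (ofMul x))) := fun x => rfl
  have hcompat : ∀ x, π' (mp (algebraMap E E') x) = π x := by
    intro x
    obtain ⟨b, hb, c, hc, hx⟩ := Submodule.mem_sup.1
      (show ofMul x ∈ B ⊔ C by rw [hBC.1.sup_eq_top]; exact Submodule.mem_top)
    rw [hπ', mp_algebraMap]
    have h1 : φ (lin (gres E E') (ofMul x)) = b := by
      rw [← hx, map_add, map_add, hφres b hb, (hφ0 _).2 (hres c hc), add_zero]
    have h3 : φ (ofMul (gres E E' x)) = b := h1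
    rw [h3]
    have h4 : x = toMul b * toMul c := congrArg toMul hx.symm
    rw [h4, map_mul, (hC c).1 hc, mul_one]
  have hfd : FiniteDimensional E E' := FiniteDimensional.of_finrank_pos (by rw [hfin]; norm_num)
  refine ⟨E', inferInstance, algebraMap E E', π', ⟨q.two_ne, finite_ext q.toQE, ?_, ?_, B', C',
    hBC', ?_, ?_⟩, ?_, hcompat, ?_⟩
  · intro t
    obtain ⟨x, rfl⟩ := hs t
    exact ⟨_, hcompat x⟩
  · rw [← mp_neg (algebraMap E E'), hcompat, hn]
  · intro x
    rw [hπ']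
    constructor
    · intro hx
      have h1 : φ (ofMul (toMul x)) = 0 := (hφ0 x).2 hx
      rw [h1]
      exact map_one π
    · intro hx
      exact (hφ0 x).1 (hdisj _ (hφB _) ((hC _).2 hx))
  · intro x hx y hy
    rw [hSp' x hx y hy, hSp _ (hnB x hx) _ (hnB y hy), hπ', hπ']
    have h1 : φ (ofMul (toMul x)) = lin (gnm E E') x := by
      show lin (gnm E E') (p x) = _
      rw [hp x hx]
    have h3 : φ (ofMul (toMul y)) = lin (gnm E E') y := by
      show lin (gnm E E') (p y) = _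
      rw [hp y hy]
    rw [h1, h3]
  · intro x
    exact Algebra.IsIntegral.isIntegral x
  · rw [mp_one_iff]
    exact ⟨_, hα.symm⟩

/-- Finitely many quadratic extensions. -/
theorem pb_list (T : QStr.{u}) (E : Type u) [Field E]
    (π : SqClass E →* T.G) (h : PB T E π) (l : List (SqClass E)) (hl : ∀ a ∈ l, π a = 1) :
    ∃ (E' : Type u) (_ : Field E') (j : E →+* E') (π' : SqClass E' →* T.G), PB T E' π' ∧
        j.IsIntegral ∧ (∀ x, π' (mp j x) = π x) ∧ ∀ a ∈ l, mp j a = 1 := by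
  induction l with
  | nil =>
    refine ⟨E, inferInstance, RingHom.id E, π, h, ?_, ?_, ?_⟩
    · exact (RingHom.id E).isIntegral_of_surjective Function.surjective_id
    · intro x; rw [mp_id]
    · intro a ha
      simp at ha
  | cons a l ih =>
    obtain ⟨E₁, _, j₁, π₁, hP₁, hi₁, hc₁, hk₁⟩ := ih (fun b hb => hl b (List.mem_cons_of_mem _ hb))
    obtain ⟨E₂, _, j₂, π₂, hP₂, hi₂, hc₂, hk₂⟩ := pb_step T E₁ π₁ hP₁ (mp j₁ a)
      (by rw [hc₁]; exact hl a List.mem_cons_self)
    refine ⟨E₂, inferInstance, j₂.comp j₁, π₂, hP₂, RingHom.IsIntegral.trans _ _ hi₁ hi₂, ?_, ?_⟩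
    · intro x
      rw [mp_comp, hc₂, hc₁]
    · intro b hb
      rw [mp_comp]
      rcases List.mem_cons.1 hb with rfl | hb
      · exact hk₂
      · rw [hk₁ b hb, map_one]

/-- The initial stage. -/
theorem pb_init {F : Type u} [Field F] (h2 : (2 : F) ≠ 0) (hf : Finite (SqClass F))
    {S T : QStr.{u}} (f : (QStr.ofField F).Iso (S.prod T))
    (hS : ∀ a b : S.G, nrm S a * nrm S b = Nat.card S.G * nrm S (a * b) → a = 1 ∨ b = 1) :
    ∃ π : SqClass F →* S.G, PB S F π := by
  obtain ⟨g, hg1, hg2⟩ : ∃ g : SqClass F ≃* S.G × T.G,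
      (∀ x y, FieldSplit F x y ↔ S.Split (g x).1 (g y).1 ∧ T.Split (g x).2 (g y).2) ∧
      g (sqClass (-1)) = (S.neg, T.neg) := ⟨f.e, f.map_split, f.map_neg⟩
  have hprod : ∀ x : SqClass F, dg F (ofMul x) = nrm S (g x).1 * nrm T (g x).2 := by
    intro x
    show Nat.card {c : SqClass F // FieldSplit F x c} =
      Nat.card {c : S.G // S.Split (g x).1 c} * Nat.card {c : T.G // T.Split (g x).2 c}
    rw [← Nat.card_prod]
    apply Nat.card_congr
    refine (g.toEquiv.subtypeEquiv (q := fun y : S.G × T.G => S.Split (g x).1 y.1 ∧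
      T.Split (g x).2 y.2) (fun c => hg1 x c)).trans ?_
    exact
      { toFun := fun y => (⟨y.1.1, y.2.1⟩, ⟨y.1.2, y.2.2⟩)
        invFun := fun z => ⟨(z.1.1, z.2.1), z.1.2, z.2.2⟩
        left_inv := fun y => rfl
        right_inv := fun z => rfl }
  have hcard : Nat.card (VV F) = Nat.card S.G * Nat.card T.G := by
    rw [← Nat.card_prod]
    exact Nat.card_congr g.toEquiv
  have hS1 : ∀ y : S.G, S.Split 1 y := by
    intro y
    have h5 := (hg1 1 (g.symm (y, 1))).1 (sp_zero_left h2 (ofMul (g.symm (y, 1))))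
    rw [map_one, MulEquiv.apply_symm_apply] at h5
    exact h5.1
  have hT1 : ∀ y : T.G, T.Split 1 y := by
    intro y
    have h5 := (hg1 1 (g.symm (1, y))).1 (sp_zero_left h2 (ofMul (g.symm (1, y))))
    rw [map_one, MulEquiv.apply_symm_apply] at h5
    exact h5.2
  have h5 : nrm T 1 = Nat.card T.G := by
    apply Nat.card_congr
    exact Equiv.subtypeUnivEquiv hT1
  have h6 : nrm S 1 = Nat.card S.G := by
    apply Nat.card_congr
    exact Equiv.subtypeUnivEquiv hS1
  have hTpos : 0 < Nat.card T.G := by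
    rcases Nat.eq_zero_or_pos (Nat.card T.G) with h | h
    · rw [h, mul_zero] at hcard
      have : 0 < Nat.card (VV F) := Nat.card_pos
      omega
    · exact h
  let π : SqClass F →* S.G := (MonoidHom.fst S.G T.G).comp g.toMonoidHom
  let ρ : SqClass F →* T.G := (MonoidHom.snd S.G T.G).comp g.toMonoidHom
  have hπ : ∀ x, π x = (g x).1 := fun x => rfl
  have hρ : ∀ x, ρ x = (g x).2 := fun x => rfl
  let B : Submodule (ZMod 2) (VV F) := AddSubgroup.toZModSubmodule 2 (Subgroup.toAddSubgroup ρ.ker)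
  let C : Submodule (ZMod 2) (VV F) := AddSubgroup.toZModSubmodule 2 (Subgroup.toAddSubgroup π.ker)
  have hB : ∀ x : VV F, x ∈ B ↔ (g (toMul x)).2 = 1 := fun x => Iff.rfl
  have hC : ∀ x : VV F, x ∈ C ↔ (g (toMul x)).1 = 1 := fun x => Iff.rfl
  refine ⟨π, h2, hf, ?_, ?_, B, C, ⟨?_, ?_, ?_⟩, hC, ?_⟩
  · intro s
    exact ⟨g.symm (s, 1), by rw [hπ, MulEquiv.apply_symm_apply]⟩
  · rw [hπ, hg2]
  · constructor
    · rw [Submodule.disjoint_def]
      intro x hx hx'
      have h7 : g (toMul x) = 1 := Prod.ext ((hC x).1 hx') ((hB x).1 hx)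
      have h8 : toMul x = 1 := g.injective (by rw [h7, map_one])
      exact h8
    · rw [codisjoint_iff, eq_top_iff]
      intro x _
      refine Submodule.mem_sup.2 ⟨ofMul (g.symm ((g (toMul x)).1, 1)), ?_,
        ofMul (g.symm (1, (g (toMul x)).2)), ?_, ?_⟩
      · rw [hB, toMul_ofMul, MulEquiv.apply_symm_apply]
      · rw [hC, toMul_ofMul, MulEquiv.apply_symm_apply]
      · rw [← ofMul_mul, ← map_mul]
        show ofMul (g.symm _) = x
        have h7 : (((g (toMul x)).1, 1) * (1, (g (toMul x)).2) : S.G × T.G) = g (toMul x) := by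
          ext
          · simp
          · simp
        rw [h7, MulEquiv.symm_apply_apply]
        rfl
  · intro b hb c hc
    rw [← card_iff h2]
    have h7 : (g (toMul b * toMul c)).1 = (g (toMul b)).1 := by
      rw [map_mul, Prod.fst_mul, (hC c).1 hc, mul_one]
    have h8 : (g (toMul b * toMul c)).2 = (g (toMul c)).2 := by
      rw [map_mul, Prod.snd_mul, (hB b).1 hb, one_mul]
    have e1 := hprod (toMul b)
    have e2 := hprod (toMul c)
    have e3 := hprod (toMul b * toMul c)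
    rw [(hB b).1 hb, h5] at e1
    rw [(hC c).1 hc, h6] at e2
    rw [h7, h8] at e3
    have e1' : dg F b = nrm S (g (toMul b)).1 * Nat.card T.G := e1
    have e2' : dg F c = Nat.card S.G * nrm T (g (toMul c)).2 := e2
    have e3' : dg F (b + c) = nrm S (g (toMul b)).1 * nrm T (g (toMul c)).2 := e3
    rw [e1', e2', e3', hcard]
    ring
  · intro x hx y hy hxy
    rw [← card_iff h2] at hxy
    have h8 : (g (toMul x * toMul y)).2 = 1 := by
      rw [map_mul, Prod.snd_mul, (hB x).1 hx, (hB y).1 hy, one_mul]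
    have e1 := hprod (toMul x)
    have e2 := hprod (toMul y)
    have e3 := hprod (toMul x * toMul y)
    rw [(hB x).1 hx, h5] at e1
    rw [(hB y).1 hy, h5] at e2
    have h11 : (g (toMul x * toMul y)).1 = (g (toMul x)).1 * (g (toMul y)).1 := by
      rw [map_mul, Prod.fst_mul]
    rw [h8, h5, h11] at e3
    have e1' : dg F x = nrm S (g (toMul x)).1 * Nat.card T.G := e1
    have e2' : dg F y = nrm S (g (toMul y)).1 * Nat.card T.G := e2
    have e3' : dg F (x + y) = nrm S ((g (toMul x)).1 * (g (toMul y)).1) * Nat.card T.G := e3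
    rw [e1', e2', e3', hcard] at hxy
    have h9 : (Nat.card T.G * Nat.card T.G) * (nrm S (g (toMul x)).1 * nrm S (g (toMul y)).1) =
        (Nat.card T.G * Nat.card T.G) *
          (Nat.card S.G * nrm S ((g (toMul x)).1 * (g (toMul y)).1)) := by
      calc (Nat.card T.G * Nat.card T.G) * (nrm S (g (toMul x)).1 * nrm S (g (toMul y)).1) =
          nrm S (g (toMul x)).1 * Nat.card T.G * (nrm S (g (toMul y)).1 * Nat.card T.G) := by ring
        _ = _ := by rw [hxy]; ring
    have h10 := Nat.eq_of_mul_eq_mul_left (Nat.mul_pos hTpos hTpos) h9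
    rcases hS _ _ h10 with h | h
    · left
      have h7 : g (toMul x) = 1 := Prod.ext h ((hB x).1 hx)
      have h8 : toMul x = 1 := g.injective (by rw [h7, map_one])
      exact h8
    · right
      have h7 : g (toMul y) = 1 := Prod.ext h ((hB y).1 hy)
      have h8 : toMul y = 1 := g.injective (by rw [h7, map_one])
      exact h8
  · intro x hx y hy
    rw [hπ, hπ]
    have h7 := hg1 (toMul x) (toMul y)
    rw [(hB x).1 hx, (hB y).1 hy] at h7
    show FieldSplit F (toMul x) (toMul y) ↔ _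
    rw [h7]
    exact and_iff_left (hT1 1)

/-- A prime factor of the structure of a field is the structure of a field. -/
theorem realise_block {F : Type u} [Field F] (h2 : (2 : F) ≠ 0)
    (hf : Finite (SqClass F)) {S T : QStr.{u}} (f : (QStr.ofField F).Iso (S.prod T))
    (hS : ∀ a b : S.G, nrm S a * nrm S b = Nat.card S.G * nrm S (a * b) → a = 1 ∨ b = 1) :
    ∃ (K : Type u) (_ : Field K), (2 : K) ≠ 0 ∧ Nonempty (S.Iso (QStr.ofField K)) := by
  obtain ⟨π, hπ⟩ := pb_init h2 hf f hS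
  obtain ⟨K, _, i, h⟩ := realise S (PB S) (fun E _ π h => pb_facts S E π h) (by
    intro E _ π h
    have hfE : Finite (SqClass E) := h.2.1
    have hfin : {a : SqClass E | π a = 1}.Finite := Set.toFinite _
    obtain ⟨E', _, j, π', h1, h3, h4, h5⟩ := pb_list S E π h hfin.toFinset.toList (by
      intro a ha
      have := Finset.mem_toList.1 ha
      exact hfin.mem_toFinset.1 this)
    refine ⟨E', inferInstance, j, π', h1, h3, h4, fun x hx => h5 x ?_⟩
    exact Finset.mem_toList.2 (hfin.mem_toFinset.2 hx)) F π hπ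
  refine ⟨K, inferInstance, ?_, h⟩
  intro h0
  apply h2
  apply i.injective
  rw [map_ofNat, map_zero]
  exact h0

end Pool.Agent.WETC
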