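import Pool.Agent.WETC.Realise
import Pool.Agent.Hhelper2.Elem

/-!
# If the structure of a field is a group extension of `T` then `T` is the structure of a field
-/

namespace Pool.Agent.WETC

open Pool.Agent.Hhelper2 Pool.Agent.Hhelper2.QuadExt Pool.Agent.Hhelper2.FieldAx
open Pool.Agent.Hhelper2.Tower Pool.Agent.KRad
open Additive Module Pool.Agent.Hhelper2.QStr

universe u

/-- The generator of the group of order two. -/
def cc : Multiplicative (ZMod 2) := Multiplicative.ofAdd 1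

theorem cc_ne : cc ≠ 1 := by decide

theorem cc_mul : cc * cc = 1 := by decide

theorem cc_cases : ∀ i : Multiplicative (ZMod 2), i = 1 ∨ i = cc := by decide

/-- The property of the fields of the tower. -/
def PE (T : QStr.{u}) (E : Type u) [Field E] (π : SqClass E →* T.G) : Prop :=
  (2 : E) ≠ 0 ∧ (∀ a b, a = 1 ∨ b = 1 → T.Split a b) ∧
    ∃ g : SqClass E ≃* T.G × Multiplicative (ZMod 2),
    g (sqClass (-1)) = (T.neg, 1) ∧ (∀ x y, FieldSplit E x y ↔ T.ext.Split (g x) (g y)) ∧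
      ∀ x, π x = (g x).1

section

variable {T : QStr.{u}}

theorem ext_11 (hT : ∀ a b, a = 1 ∨ b = 1 → T.Split a b) {a b : T.G} :
    T.ext.Split ((a, 1) : T.G × Multiplicative (ZMod 2)) (b, 1) ↔ T.Split a b := by
  show (_ ∧ _ ∧ _) ∨ (_ = (1 : T.G × Multiplicative (ZMod 2))) ∨
    (_ = (1 : T.G × Multiplicative (ZMod 2))) ∨ (_ ∧ _ ∧ _) ↔ _
  simp only [Prod.ext_iff, Prod.fst_one, Prod.snd_one, ne_eq, not_true_eq_false, false_and,
    and_true, true_and, or_false]
  constructor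
  · rintro (h | h | h)
    · exact h
    · exact hT _ _ (Or.inl h)
    · exact hT _ _ (Or.inr h)
  · exact Or.inl

theorem ext_1c {a b : T.G} : T.ext.Split ((a, 1) : T.G × Multiplicative (ZMod 2)) (b, cc) ↔
    a = 1 := by
  show (_ ∧ _ ∧ _) ∨ (_ = (1 : T.G × Multiplicative (ZMod 2))) ∨
    (_ = (1 : T.G × Multiplicative (ZMod 2))) ∨ (_ ∧ _ ∧ _) ↔ _
  simp [Prod.ext_iff, cc_ne]

theorem ext_c1 {a b : T.G} : T.ext.Split ((a, cc) : T.G × Multiplicative (ZMod 2)) (b, 1) ↔
    b = 1 := by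
  show (_ ∧ _ ∧ _) ∨ (_ = (1 : T.G × Multiplicative (ZMod 2))) ∨
    (_ = (1 : T.G × Multiplicative (ZMod 2))) ∨ (_ ∧ _ ∧ _) ↔ _
  simp [Prod.ext_iff, cc_ne]

theorem ext_cc {a b : T.G} : T.ext.Split ((a, cc) : T.G × Multiplicative (ZMod 2)) (b, cc) ↔
    b = T.neg * a := by
  show (_ ∧ _ ∧ _) ∨ (_ = (1 : T.G × Multiplicative (ZMod 2))) ∨
    (_ = (1 : T.G × Multiplicative (ZMod 2))) ∨ (_ ∧ _ ∧ _) ↔ _
  simp [Prod.ext_iff, cc_ne]

end

theorem pe_facts (T : QStr.{u}) (E : Type u) [Field E] (π : SqClass E →* T.G) (h : PE T E π) :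
    Function.Surjective π ∧ (∀ x y, FieldSplit E x y → T.Split (π x) (π y)) ∧
      (∀ a b, T.Split a b → ∃ x y, π x = a ∧ π y = b ∧ FieldSplit E x y) ∧
      π (sqClass (-1)) = T.neg := by
  obtain ⟨h2, hT, g, hg1, hg2, hπ⟩ := h
  refine ⟨?_, ?_, ?_, ?_⟩
  · intro t
    exact ⟨g.symm (t, 1), by rw [hπ, MulEquiv.apply_symm_apply]⟩
  · intro x y hxy
    rw [hπ, hπ]
    have h1 := (hg2 x y).1 hxy
    obtain ⟨a, i, hx⟩ : ∃ a i, g x = (a, i) := ⟨_, _, rfl⟩
    obtain ⟨b, j, hy⟩ : ∃ b j, g y = (b, j) := ⟨_, _, rfl⟩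
    rw [hx, hy] at h1 ⊢
    show T.Split a b
    rcases cc_cases i with rfl | rfl <;> rcases cc_cases j with rfl | rfl
    · exact (ext_11 hT).1 h1
    · exact hT _ _ (Or.inl (ext_1c.1 h1))
    · exact hT _ _ (Or.inr (ext_c1.1 h1))
    · rw [ext_cc.1 h1]
      have h3 := (QStr.ofField_axioms E h2).neg (g.symm (a, 1))
      have h4 : FieldSplit E (g.symm (a, 1)) (sqClass (-1) * g.symm (a, 1)) := h3
      rw [hg2, map_mul, MulEquiv.apply_symm_apply, hg1] at h4
      have h5 : ((T.neg, 1) * (a, 1) : T.G × Multiplicative (ZMod 2)) = (T.neg * a, 1) := by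
        rw [Prod.mk_mul_mk, mul_one]
      rw [h5] at h4
      exact (ext_11 hT).1 h4
  · intro a b hab
    refine ⟨g.symm (a, 1), g.symm (b, 1), by rw [hπ, MulEquiv.apply_symm_apply],
      by rw [hπ, MulEquiv.apply_symm_apply], ?_⟩
    rw [hg2, MulEquiv.apply_symm_apply, MulEquiv.apply_symm_apply]
    exact (ext_11 hT).2 hab
  · rw [hπ, hg1]

theorem comm_aux {G : Type*} [CommGroup G] (A B N s : G) :
    B * s * (N * (A * s)) = N * A * B * (s * s) := by
  rw [← mul_assoc N A s, ← mul_assoc (B * s) (N * A) s, mul_assoc B s (N * A), mul_comm s (N * A),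
    ← mul_assoc B (N * A) s, mul_assoc (B * (N * A)) s s, mul_comm B (N * A)]

/-- The next field `E(√t)`. -/
theorem pe_step (T : QStr.{u}) (E : Type u) [Field E] (π : SqClass E →* T.G) (h : PE T E π) :
    ∃ (E' : Type u) (_ : Field E') (j : E →+* E') (π' : SqClass E' →* T.G), PE T E' π' ∧
        j.IsIntegral ∧ (∀ x, π' (mp j x) = π x) ∧ ∀ x, π x = 1 → mp j x = 1 := by
  obtain ⟨h2, hT, g, hg1, hg2, hπ⟩ := h
  have hax := QStr.ofField_axioms E h2
  have hsqE : ∀ x : SqClass E, x * x = 1 := fun x => hax.sq x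
  have hsqT : ∀ a : T.G, a * a = 1 := by
    intro a
    have h1 := congrArg (fun y => (g y).1) (hsqE (g.symm (a, 1)))
    simpa using h1
  -- the class `t`
  obtain ⟨t₀, ht₀⟩ := exists_rep (g.symm (1, cc))
  have hgt : g (sqClass t₀) = (1, cc) := by rw [ht₀, MulEquiv.apply_symm_apply]
  have ht1 : sqClass t₀ ≠ 1 := by
    intro h
    rw [h, map_one] at hgt
    exact cc_ne (congrArg Prod.snd hgt).symm
  have hns : ¬ ∃ s : E, (t₀ : E) = s ^ 2 := fun h => ht1 ((one_iff t₀).2 h)
  have hfact : Fact (∀ r : E, r ^ 2 ≠ (t₀ : E) + 0 * r) :=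
    ⟨fun r hr => hns ⟨r, by rw [hr]; ring⟩⟩
  let E' := QuadraticAlgebra E (t₀ : E) 0
  have hfin : finrank E E' = 2 := QuadraticAlgebra.finrank_eq_two ..
  have hα : (⟨0, 1⟩ : E') ^ 2 = algebraMap E E' (t₀ : E) := by
    rw [← elt_sqrt (a := (t₀ : E)) (1 : E), one_pow, mul_one]
  obtain ⟨q, hq, hn⟩ := exists_QL h2 hfin t₀ _ hα hns
  have hα0 : (⟨0, 1⟩ : E') ≠ 0 := by
    intro h
    rw [h] at hα
    apply t₀.ne_zero
    apply (algebraMap E E').injective
    rw [← hα, map_zero]; ring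
  let s : SqClass E' := sqClass (Units.mk0 _ hα0)
  have hs : q.nm s = sqClass (-1) * sqClass t₀ := by
    rw [hn]
    show gnm E E' (sqClass (Units.mk0 _ hα0)) = _
    rw [Biquad.gnm_mk, ← QuotientGroup.mk_mul]
    congr 1
    ext
    have h1 := (Biquad.coords hfin (t₀ : E) _ hα hns).2 0 1
    rw [map_zero, map_one, zero_add, one_mul] at h1
    show Algebra.norm E (⟨0, 1⟩ : E') = _
    rw [h1]
    simp
  have hssq : s * s = 1 := (QStr.ofField_axioms E' q.two_ne).sq s
  have hnt : g (sqClass (-1) * sqClass t₀) = (T.neg, cc) := by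
    rw [map_mul, hg1, hgt, Prod.mk_mul_mk, mul_one, one_mul]
  have hnt1 : sqClass (-1) * sqClass t₀ ≠ (1 : SqClass E) := by
    intro h
    rw [h, map_one] at hnt
    exact cc_ne (congrArg Prod.snd hnt).symm
  -- the norms
  have hnorms : ∀ y : SqClass E', q.nm y = 1 ∨ q.nm y = sqClass (-1) * sqClass t₀ := by
    intro y
    have h1 := q.nm_split y
    rw [hg2, hgt] at h1
    obtain ⟨b, j, hy⟩ : ∃ b j, g (q.nm y) = (b, j) := ⟨_, _, rfl⟩
    rw [hy] at h1
    rcases cc_cases j with rfl | rfl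
    · left
      rw [ext_c1] at h1
      apply g.injective
      rw [hy, h1, map_one]
      rfl
    · right
      rw [ext_cc, mul_one] at h1
      apply g.injective
      rw [hy, h1, hnt]
  let σ : T.G →* SqClass E := (g.symm.toMonoidHom).comp (MonoidHom.inl T.G _)
  have hσ : ∀ a, σ a = g.symm (a, 1) := fun a => rfl
  have hgσ : ∀ a, g (σ a) = (a, 1) := fun a => by rw [hσ, MulEquiv.apply_symm_apply]
  have hrest : q.res (sqClass t₀) = 1 := (q.res_one _).2 (Or.inr rfl)
  have hresσ : ∀ x, q.res x = q.res (σ (g x).1) := by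
    intro x
    obtain ⟨a, i, hx⟩ : ∃ a i, g x = (a, i) := ⟨_, _, rfl⟩
    rw [hx]
    rcases cc_cases i with rfl | rfl
    · congr 1
      apply g.injective
      rw [hx, hgσ]
    · have h1 : x = σ a * sqClass t₀ := by
        apply g.injective
        rw [map_mul, hgσ, hgt, hx, Prod.mk_mul_mk, mul_one, one_mul]
      rw [h1, map_mul, hrest, mul_one]
  -- the isomorphism
  let c2 : Multiplicative (ZMod 2) →* SqClass E' := c2Hom' s hssq
  have hc1 : c2 1 = 1 := map_one _
  have hcc : c2 cc = s := by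
    show (if cc = 1 then 1 else s) = s
    rw [if_neg cc_ne]
  let G : T.G × Multiplicative (ZMod 2) →* SqClass E' := (q.res.comp σ).coprod c2
  have hG1 : ∀ a, G (a, 1) = q.res (σ a) := by
    intro a
    show q.res (σ a) * c2 1 = _
    rw [hc1, mul_one]
  have hGc : ∀ a, G (a, cc) = q.res (σ a) * s := by
    intro a
    show q.res (σ a) * c2 cc = _
    rw [hcc]
  have hGinj : Function.Injective G := by
    rw [injective_iff_map_eq_one]
    rintro ⟨a, i⟩ h
    rcases cc_cases i with rfl | rfl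
    · rw [hG1, q.res_one] at h
      rcases h with h | h
      · have h1 := congrArg g h
        rw [hgσ, map_one] at h1
        exact h1
      · have h1 := congrArg g h
        rw [hgσ, hgt] at h1
        exact absurd (congrArg Prod.snd h1) (fun h => cc_ne h.symm)
    · exfalso
      rw [hGc] at h
      have h1 := congrArg q.nm h
      rw [map_mul, q.nm_res, one_mul, hs, map_one] at h1
      exact hnt1 h1
  have hGsurj : Function.Surjective G := by
    intro y
    rcases hnorms y with h | h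
    · obtain ⟨x, rfl⟩ := q.ker_nm y h
      exact ⟨((g x).1, 1), by rw [hG1, ← hresσ]⟩
    · obtain ⟨x, hx⟩ := q.ker_nm (y * s) (by
        rw [map_mul, h, hs]
        exact hsqE _)
      refine ⟨((g x).1, cc), ?_⟩
      rw [hGc, ← hresσ, ← hx, mul_assoc, hssq, mul_one]
  let e : T.G × Multiplicative (ZMod 2) ≃* SqClass E' := MulEquiv.ofBijective G ⟨hGinj, hGsurj⟩
  have he : ∀ p, e p = G p := fun p => rfl
  have hG1T : G (T.neg, 1) = sqClass (-1) := by
    rw [hG1]
    have h1 : σ T.neg = sqClass (-1) := by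
      apply g.injective
      rw [hgσ, hg1]
    rw [h1, hq]
    exact mp_neg (algebraMap E E')
  have haxE' := QStr.ofField_axioms E' q.two_ne
  -- splitting
  have s11 : ∀ a b, FieldSplit E' (q.res (σ a)) (q.res (σ b)) ↔ T.Split a b := by
    intro a b
    constructor
    · intro h
      obtain ⟨w, hw1, hw2⟩ := q.killed _ _ h
      obtain ⟨c, i, hw⟩ : ∃ c i, g w = (c, i) := ⟨_, _, rfl⟩
      have e1 : g (σ b * w) = (b * c, i) := by
        rw [map_mul, hgσ, hw, Prod.mk_mul_mk, one_mul]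
      have e2 : g (sqClass t₀ * σ a) = (a, cc) := by
        rw [map_mul, hgt, hgσ, Prod.mk_mul_mk, one_mul, mul_one]
      rw [hg2, e1, hgσ] at hw1
      rw [hg2, e2, hw] at hw2
      rcases cc_cases i with rfl | rfl
      · rw [ext_c1] at hw2
        rw [hw2, mul_one] at hw1
        exact (ext_11 hT).1 hw1
      · rw [ext_1c] at hw1
        exact hT _ _ (Or.inl hw1)
    · intro h
      apply q.res_split
      rw [hg2, hgσ, hgσ]
      exact (ext_11 hT).2 h
  have s1c : ∀ a b, FieldSplit E' (q.res (σ a)) (q.res (σ b) * s) ↔ a = 1 := by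
    intro a b
    constructor
    · intro h
      have h1 := q.proj _ _ h
      rw [map_mul, q.nm_res, one_mul, hs, hg2, hgσ, hnt] at h1
      exact ext_1c.1 h1
    · rintro rfl
      rw [map_one, map_one]
      exact haxE'.symm _ _ (haxE'.one _)
  have scc : ∀ a b, FieldSplit E' (q.res (σ a) * s) (q.res (σ b) * s) ↔ b = T.neg * a := by
    intro a b
    set x := q.res (σ a) * s with hx
    have h0 : FieldSplit E' x (sqClass (-1) * x) := haxE'.neg x
    have h1 : FieldSplit E' x (q.res (σ b) * s) ↔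
        FieldSplit E' x (q.res (σ (T.neg * a * b))) := by
      have e1 : q.res (σ b) * s * (sqClass (-1) * x) = q.res (σ (T.neg * a * b)) := by
        rw [← hG1T, hG1, hx, map_mul σ, map_mul σ, map_mul, map_mul, comm_aux, hssq, mul_one]
      constructor
      · intro h
        rw [← e1]
        exact haxE'.mul _ _ _ h h0
      · intro h
        have h3 := haxE'.mul _ _ _ h h0
        have e2 : q.res (σ (T.neg * a * b)) * (sqClass (-1) * x) = q.res (σ b) * s := by
          rw [← e1, mul_assoc]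
          have h4 : sqClass (-1) * x * (sqClass (-1) * x) = (1 : SqClass E') := haxE'.sq _
          rw [h4, mul_one]
        exact e2 ▸ h3
    rw [h1]
    have h3 : FieldSplit E' x (q.res (σ (T.neg * a * b))) ↔ T.neg * a * b = 1 := by
      rw [← s1c (T.neg * a * b) a]
      exact ⟨fun h => haxE'.symm _ _ h, fun h => haxE'.symm _ _ h⟩
    rw [h3]
    constructor
    · intro h
      calc b = (T.neg * a) * (T.neg * a) * b := by rw [hsqT, one_mul]
        _ = (T.neg * a) * (T.neg * a * b) := by rw [mul_assoc]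
        _ = _ := by rw [h, mul_one]
    · rintro rfl
      exact hsqT _
  have hfd : FiniteDimensional E E' := FiniteDimensional.of_finrank_pos (by rw [hfin]; norm_num)
  refine ⟨E', inferInstance, algebraMap E E', (MonoidHom.fst _ _).comp e.symm.toMonoidHom,
    ⟨q.two_ne, hT, e.symm, ?_, ?_, fun x => rfl⟩, ?_, ?_, ?_⟩
  · rw [MulEquiv.symm_apply_eq, he, hG1T]
  · intro x y
    obtain ⟨⟨a, i⟩, rfl⟩ := e.surjective x
    obtain ⟨⟨b, j⟩, rfl⟩ := e.surjective y
    rw [MulEquiv.symm_apply_apply, MulEquiv.symm_apply_apply, he, he]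
    rcases cc_cases i with rfl | rfl <;> rcases cc_cases j with rfl | rfl
    · rw [hG1, hG1, s11]
      exact (ext_11 hT).symm
    · rw [hG1, hGc, s1c]
      exact ext_1c.symm
    · rw [hG1, hGc]
      have h3 : FieldSplit E' (q.res (σ a) * s) (q.res (σ b)) ↔ b = 1 := by
        rw [← s1c b a]
        exact ⟨fun h => haxE'.symm _ _ h, fun h => haxE'.symm _ _ h⟩
      rw [h3]
      exact ext_c1.symm
    · rw [hGc, hGc, scc]
      exact ext_cc.symm
  · intro x
    exact Algebra.IsIntegral.isIntegral x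
  · intro x
    rw [hπ]
    show (e.symm (mp (algebraMap E E') x)).1 = _
    have h1 : mp (algebraMap E E') x = e ((g x).1, 1) := by
      rw [he, hG1, ← hresσ, hq]
      rfl
    rw [h1, MulEquiv.symm_apply_apply]
  · intro x hx
    rw [hπ] at hx
    show mp (algebraMap E E') x = 1
    have h1 : mp (algebraMap E E') x = q.res x := by rw [hq]; rfl
    rw [h1, hresσ, hx, map_one, map_one]

/-- If the structure of a field is a group extension of `T` then `T` is (up to the irrelevant values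
at `1`) the structure of a field. -/
theorem realise_ext {F : Type u} [Field F] (h2 : (2 : F) ≠ 0) {T : QStr.{u}}
    (f : (QStr.ofField F).Iso T.ext) :
    ∃ (K : Type u) (_ : Field K) (T' : QStr.{u}), (2 : K) ≠ 0 ∧
      Nonempty (T'.Iso (QStr.ofField K)) ∧ Nonempty ((QStr.ofField F).Iso T'.ext) ∧
      Nonempty (T.G ≃ T'.G) := by
  let T' : QStr.{u} :=
    { G := T.G
      neg := T.neg
      Split := fun a b => T.Split a b ∨ a = 1 ∨ b = 1 }
  have hT' : ∀ a b, a = 1 ∨ b = 1 → T'.Split a b := fun a b h => Or.inr h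
  have hsp : ∀ x y : T.G × Multiplicative (ZMod 2), T.ext.Split x y ↔ T'.ext.Split x y := by
    intro x y
    show (x.2 = 1 ∧ y.2 = 1 ∧ T.Split x.1 y.1) ∨ x = 1 ∨ y = 1 ∨
      (x.2 ≠ 1 ∧ y.2 ≠ 1 ∧ y.1 = T.neg * x.1) ↔
      (x.2 = 1 ∧ y.2 = 1 ∧ (T.Split x.1 y.1 ∨ x.1 = 1 ∨ y.1 = 1)) ∨ x = 1 ∨ y = 1 ∨
      (x.2 ≠ 1 ∧ y.2 ≠ 1 ∧ y.1 = T.neg * x.1)
    constructor
    · rintro (⟨h1, h3, h4⟩ | h)
      · exact Or.inl ⟨h1, h3, Or.inl h4⟩
      · exact Or.inr h
    · rintro (⟨h1, h3, h4 | h4 | h4⟩ | h)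
      · exact Or.inl ⟨h1, h3, h4⟩
      · exact Or.inr (Or.inl (Prod.ext h4 h1))
      · exact Or.inr (Or.inr (Or.inl (Prod.ext h4 h3)))
      · exact Or.inr h
  obtain ⟨g, hg1, hg2⟩ : ∃ g : SqClass F ≃* T'.G × Multiplicative (ZMod 2),
      g (sqClass (-1)) = (T'.neg, 1) ∧ ∀ x y, FieldSplit F x y ↔ T'.ext.Split (g x) (g y) :=
    ⟨f.e, f.map_neg, fun x y => (f.map_split x y).trans (hsp _ _)⟩
  obtain ⟨K, _, i, h⟩ := realise T' (PE T') (fun E _ π h => pe_facts T' E π h)
    (fun E _ π h => pe_step T' E π h) F ((MonoidHom.fst _ _).comp g.toMonoidHom)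
    ⟨h2, hT', g, hg1, hg2, fun x => rfl⟩
  refine ⟨K, inferInstance, T', ?_, h, ⟨⟨g, hg1, hg2⟩⟩, ⟨Equiv.refl _⟩⟩
  intro h0
  apply h2
  apply i.injective
  rw [map_ofNat, map_zero]
  exact h0

end Pool.Agent.WETC
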