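import Pool.Agent.WETC.Iface
import Pool.Agent.WETC.Block
import Pool.Agent.WETC.ExtField
import Pool.Agent.GoReal.Down
import Pool.Agent.Hhelper2.Elem

/-!
# Assembly of the weak elementary type conjecture from the existence theorem
-/

namespace Pool.Agent.WETC

open Pool.Agent.Hhelper2 Pool.Agent.Hhelper2.QuadExt Pool.Agent.Hhelper2.FieldAx
open Pool.Agent.Hhelper2.Tower Pool.Agent.KRad Pool.Agent.GoReal
open Additive Module Pool.Agent.Hhelper2.QStr

universe u

/-- A field with one square class is of local type. -/
theorem locExt_of_trivial {K : Type u} [Field K] (h : Subsingleton (SqClass K)) : LocExt K := by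
  left
  have h1 : ∀ a b : SqClass K, FieldSplit K a b := by
    intro a b
    rw [Subsingleton.elim a 1]
    exact ofField_one_split K b
  exact
    { sq := fun a => @Subsingleton.elim _ h _ _
      symm := fun a b _ => h1 b a
      one := fun a => h1 a 1
      neg := fun a => h1 _ _
      mul := fun a b c _ _ => h1 _ _
      index := fun a b c _ _ => h1 _ _
      nondeg := fun a ha => absurd (@Subsingleton.elim _ h _ _) ha }

/-- Going down a tower. -/
theorem locExt_of_quadTower (F : Type u) [Field F] (h2 : (2 : F) ≠ 0) (hf : Finite (SqClass F))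
    (hc : Conn F) (E : Type u) [Field E] (h : QuadTower F E) (hE : LocExt E) : LocExt F := by
  induction h with
  | base => exact hE
  | step K E hK hfin ih =>
    obtain ⟨i1, i2, i3, -⟩ := quadTower F h2 hf K hK
    exact ih (locExt_down i1 hfin (i3 hc) hE)

/-- Prime structures of fields are of local type or group extensions. -/
theorem locExt_of_conn (hex : ExactInput.{u}) (F : Type u) [Field F] (h2 : (2 : F) ≠ 0)
    (hf : Finite (SqClass F)) (hc : Conn F) : LocExt F := by
  have key : ∀ (K : Type u) [Field K], (2 : K) ≠ 0 → Finite (SqClass K) →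
      (∃ i : K, i ^ 2 = -1) → Conn K → LocExt K := by
    intro K _ h2K hfK hi hcK
    rcases subsingleton_or_nontrivial (SqClass K) with h | h
    · exact locExt_of_trivial h
    · obtain ⟨E, _, hT, hE⟩ := hex K h2K hfK hi hcK h
      exact locExt_of_quadTower K h2K hfK hcK E hT hE
  by_cases hi : ∃ i : F, i ^ 2 = -1
  · exact key F h2 hf hi hc
  · have hfact : Fact (∀ r : F, r ^ 2 ≠ (-1 : F) + 0 * r) :=
      ⟨fun r hr => hi ⟨r, by rw [hr]; ring⟩⟩
    let K := QuadraticAlgebra F (-1 : F) 0
    have hfin : finrank F K = 2 := QuadraticAlgebra.finrank_eq_two ..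
    have hα : (⟨0, 1⟩ : K) ^ 2 = algebraMap F K (-1 : F) := by
      rw [← elt_sqrt (a := (-1 : F)) (1 : F), one_pow, mul_one]
    obtain ⟨hcK, h2K, hfK⟩ := goUp_field h2 hfin hc
    refine locExt_down h2 hfin hc (key K h2K hfK ⟨⟨0, 1⟩, ?_⟩ hcK)
    rw [hα, map_neg, map_one]

/-- Finite products of elementary structures. -/
theorem isElementary_pi : ∀ (n : ℕ) (S : Fin n → QStr.{u}), (∀ i, IsElementary (S i)) →
    IsElementary (QStr.pi S)
  | 0, S, _ => isElementary_of_trivial _ (fun a => by
      funext i
      exact i.elim0) (fun i => i.elim0)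
  | n + 1, S, h => by
    refine IsElementary.prod (S 0) (QStr.pi (fun i : Fin n => S i.succ)) _ (h 0)
      (isElementary_pi n _ (fun i => h i.succ)) ⟨?_⟩
    exact
      { e :=
          { toFun := fun x => (x 0, fun i => x i.succ)
            invFun := fun y => Fin.cons y.1 y.2
            left_inv := fun x => by
              funext i
              refine Fin.cases ?_ (fun j => ?_) i
              · rfl
              · rfl
            right_inv := fun y => rfl
            map_mul' := fun x y => rfl }
        map_neg := rfl
        map_split := fun x y => by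
          constructor
          · intro h
            exact ⟨h 0, fun i => h i.succ⟩
          · rintro ⟨h0, h1⟩ i
            refine Fin.cases h0 (fun j => h1 j) i }

/-- Splitting off one factor. -/
noncomputable def isoPi {n : ℕ} (R : QStr.{u}) (S : Fin n → QStr.{u}) (i : Fin n) :
    (R.prod (QStr.pi S)).Iso
      ((S i).prod (R.prod (QStr.pi (fun j : {j : Fin n // j ≠ i} => S j.1)))) where
  e :=
    { toFun := fun x => (x.2 i, (x.1, fun j => x.2 j.1))
      invFun := fun y => (y.2.1, fun j => if h : j = i then h ▸ y.1 else y.2.2 ⟨j, h⟩)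
      left_inv := fun x => by
        refine Prod.ext rfl ?_
        funext j
        by_cases h : j = i
        · subst h
          simp
        · simp [h]
      right_inv := fun y => by
        refine Prod.ext ?_ (Prod.ext rfl ?_)
        · simp
        · funext j
          simp [j.2]
      map_mul' := fun x y => rfl }
  map_neg := rfl
  map_split := fun x y => by
    constructor
    · rintro ⟨h0, h1⟩
      exact ⟨h1 i, h0, fun j => h1 j.1⟩
    · rintro ⟨h0, h1, h3⟩
      refine ⟨h1, fun j => ?_⟩
      by_cases h : j = i
      · subst h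
        exact h0
      · exact h3 ⟨j, h⟩

/-- The main theorem, from the existence theorem and the local case. -/
theorem main (hex : ExactInput.{u}) (hloc : LocalInput.{u}) : ∀ (n : ℕ) (F : Type u) [Field F],
    (2 : F) ≠ 0 → Finite (SqClass F) → Nat.card (SqClass F) = n →
    IsElementary (QStr.ofField F) := by
  intro n
  induction n using Nat.strong_induction_on with
  | _ n ih =>
  intro F _ h2 hf hcard
  obtain ⟨m, R, S, ⟨f⟩, hR, hS⟩ := blocks_prod F h2 hf
  obtain ⟨fe⟩ : Nonempty (SqClass F ≃* R.G × ∀ i, (S i).G) := ⟨f.e⟩
  have hfinG' : Finite (R.G × ∀ i, (S i).G) := Finite.of_equiv _ fe.toEquiv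
  have hRfin : Finite R.G := Finite.of_surjective (fun x : R.G × ∀ i, (S i).G => x.1)
    (fun r => ⟨(r, fun _ => 1), rfl⟩)
  have hRsq : ∀ a : R.G, a * a = 1 := by
    intro a
    have h1 : fe.symm (a, 1) * fe.symm (a, 1) = 1 := ofField_sq F _
    rw [← map_mul] at h1
    have h3 := congrArg fe h1
    rw [MulEquiv.apply_symm_apply, map_one] at h3
    exact congrArg Prod.fst h3
  have hRel : IsElementary R :=
    isElementary_totallySplit _ R hRfin rfl hRsq hR
  have hSel : ∀ i, IsElementary (S i) := by
    intro i
    have g := f.trans (isoPi R S i)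
    obtain ⟨K, _, h2K, ⟨k⟩⟩ := realise_block h2 hf g (hS i).2
    obtain ⟨ke, hke⟩ : ∃ ke : (S i).G ≃* SqClass K,
      ∀ a b, (S i).Split a b ↔ FieldSplit K (ke a) (ke b) := ⟨k.e, k.map_split⟩
    -- finiteness
    have hSfin : Finite (S i).G :=
      Finite.of_surjective (fun x : R.G × ∀ i, (S i).G => x.2 i) (fun s => by
        classical
        exact ⟨(1, Pi.mulSingle i s), by simp⟩)
    have hKfin : Finite (SqClass K) := Finite.of_equiv _ ke.toEquiv
    have hSn : Nat.card (S i).G ≤ n := by
      rw [← hcard]
      have h1 : Function.Surjective (fun x : SqClass F => (fe x).2 i) := by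
        intro s
        refine ⟨fe.symm (1, Pi.mulSingle i s), ?_⟩
        show (fe (fe.symm (1, Pi.mulSingle i s))).2 i = s
        rw [MulEquiv.apply_symm_apply]
        simp
      exact Nat.card_le_card_of_surjective _ h1
    have hKn : Nat.card (SqClass K) ≤ n := by
      rw [← Nat.card_congr ke.toEquiv]
      exact hSn
    -- the field is prime
    have hconn : Conn K := by
      intro x y hxy
      rw [← card_iff h2K] at hxy
      have hn : ∀ a : (S i).G, nrm (S i) a = dg K (ofMul (ke a)) := by
        intro a
        apply Nat.card_congr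
        exact ke.toEquiv.subtypeEquiv (fun b => hke a b)
      have h3 := (hS i).2 (ke.symm (toMul x)) (ke.symm (toMul y))
      rw [hn, hn, hn, map_mul, MulEquiv.apply_symm_apply, MulEquiv.apply_symm_apply,
        Nat.card_congr ke.toEquiv] at h3
      rcases h3 hxy with h | h
      · left
        have h5 := congrArg ke h
        rw [MulEquiv.apply_symm_apply, map_one] at h5
        exact h5
      · right
        have h5 := congrArg ke h
        rw [MulEquiv.apply_symm_apply, map_one] at h5
        exact h5
    have hle := locExt_of_conn hex K h2K hKfin hconn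
    rw [locExt_iff h2K] at hle
    rcases hle with hl | ⟨T, ⟨t⟩⟩
    · exact isElementary_of_iso _ _ (hloc _ hKfin hl) ⟨k⟩
    · obtain ⟨K', _, T', h2K', ⟨k'⟩, ⟨t'⟩, ⟨eqv⟩⟩ := realise_ext h2K t
      have hTT : Nat.card (SqClass K) = Nat.card T'.G * 2 := by
        have h1 : Nat.card (SqClass K) = Nat.card (T'.G × Multiplicative (ZMod 2)) :=
          Nat.card_congr t'.e.toEquiv
        rw [h1, Nat.card_prod]
        congr 1
        simp
      have hpos : 0 < Nat.card (SqClass K) := Nat.card_pos
      have hT'fin : Finite T'.G := Nat.finite_of_card_ne_zero (by omega)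
      have hK'fin : Finite (SqClass K') := Finite.of_equiv _ k'.e.toEquiv
      have hlt : Nat.card (SqClass K') < n := by
        have h1 : Nat.card T'.G = Nat.card (SqClass K') := Nat.card_congr k'.e.toEquiv
        have h3 : 0 < Nat.card T'.G := Nat.card_pos
        omega
      have h5 := ih _ hlt K' h2K' hK'fin rfl
      have h6 : IsElementary T' := isElementary_of_iso _ _ h5 ⟨k'⟩
      exact isElementary_of_iso _ _ (IsElementary.ext T' _ h6 ⟨t'⟩) ⟨k⟩
  exact IsElementary.prod R (QStr.pi S) _ hRel (isElementary_pi m S hSel) ⟨f⟩

end Pool.Agent.WETC
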