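import Pool.Agent.WETC.Assembly
import Pool.Agent.ETC92.Input1
import Pool.Agent.Hhelper86.Dyad.Final

/-!
# The weak elementary type conjecture for fields
-/

namespace Pool.Agent.WETC

open Pool.Agent.Hhelper2 Pool.Agent.Hhelper2.Tower Pool.Agent.KRad Pool.Agent.GoReal
open Additive Module

universe u

theorem exactInput : ExactInput.{u} :=
  fun K _ h2 hf hi hc hnt => Pool.Agent.ETC92.exists_tower_locExt K h2 hf hi hc hnt

theorem localInput : LocalInput.{u} := fun S hS h =>
  haveI := hS
  Pool.Agent.Hhelper86.Dyad.isElementary_of_isLocal S h

/-- The quaternionic structure of a field of characteristic not two with finitely many square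
classes is elementary. -/
theorem isElementary_ofField (F : Type u) [Field F] (h2 : (2 : F) ≠ 0)
    (hf : Finite (SqClass F)) : IsElementary (QStr.ofField F) :=
  main exactInput localInput _ F h2 hf rfl

end Pool.Agent.WETC
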