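import Pool.Agent.GoReal.Ext
import Pool.Agent.Hhelper2.Elem

/-!
# The interface of the final assembly (weak elementary type conjecture)

The statements which are combined in `Pool.Agent.WETC.Assembly`.
-/

namespace Pool.Agent.WETC

open Pool.Agent.Hhelper2 Pool.Agent.Hhelper2.Tower Pool.Agent.KRad Pool.Agent.GoReal
open Additive Module

universe u

/-- INPUT 1 (helper9: existence of an exact pair; helper92: exact pair implies local type or group
extension). A field with `√-1`, finitely many (and at least two) square classes, without independent
pairs, has a finite 2-extension whose structure is of local type or a group extension. -/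
def ExactInput : Prop :=
  ∀ (K : Type u) [Field K], (2 : K) ≠ 0 → Finite (SqClass K) → (∃ i : K, i ^ 2 = -1) → Conn K →
    Nontrivial (SqClass K) → ∃ (E : Type u) (_ : Field E), QuadTower K E ∧ LocExt E

/-- INPUT 2 (helper96 in general; helper14 for `-1` a square). Going down. -/
def DownInput : Prop :=
  ∀ (K E : Type u) [Field K] [Field E] [Algebra K E], (2 : K) ≠ 0 → Finite (SqClass K) →
    finrank K E = 2 → Conn K → LocExt E → LocExt K

/-- INPUT 3 (helper86). Finite structures of local type are elementary. -/
def LocalInput : Prop :=
  ∀ S : QStr.{u}, Finite S.G → S.IsLocal → IsElementary S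

end Pool.Agent.WETC
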