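import Pool.Agent.KRad.GoFinal

/-!
# Unions of towers of fields
-/

namespace Pool.Agent.WETC

open Pool.Agent.Hhelper2 Pool.Agent.Hhelper2.QuadExt Pool.Agent.Hhelper2.FieldAx
open Pool.Agent.KRad

universe u v

section mp

variable {A B C : Type u} [Field A] [Field B] [Field C]

/-- The map on square classes induced by a homomorphism of fields. -/
noncomputable def mp (f : A →+* B) : SqClass A →* SqClass B :=
  scMap (Units.map (f : A →* B))

lemma mp_mk (f : A →+* B) (x : Aˣ) : mp f (sqClass x) = sqClass (Units.map (f : A →* B) x) := rfl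

lemma mp_algebraMap [Algebra A B] : mp (algebraMap A B) = gres A B := rfl

lemma mp_id (x : SqClass A) : mp (RingHom.id A) x = x := by
  obtain ⟨x, rfl⟩ := exists_rep x
  rw [mp_mk]
  congr 1

lemma mp_comp (g : B →+* C) (f : A →+* B) (x : SqClass A) : mp (g.comp f) x = mp g (mp f x) := by
  obtain ⟨x, rfl⟩ := exists_rep x
  rfl

lemma mp_split (f : A →+* B) {x y : SqClass A} (h : FieldSplit A x y) :
    FieldSplit B (mp f x) (mp f y) := by
  obtain ⟨x', y', rfl, rfl, X, Y, h⟩ := h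
  refine ⟨Units.map (f : A →* B) x', Units.map (f : A →* B) y', rfl, rfl, f X, f Y, ?_⟩
  have := congrArg f h
  simpa using this

lemma mp_neg (f : A →+* B) : mp f (sqClass (-1)) = sqClass (-1) := by
  rw [mp_mk]
  congr 1
  ext
  simp

lemma mp_one_iff (f : A →+* B) (x : Aˣ) : mp f (sqClass x) = 1 ↔ ∃ t : B, f x = t ^ 2 := by
  rw [mp_mk, one_iff]
  rfl

end mp

/-- Two surjective homomorphisms with the same kernel. -/
theorem exists_equiv {A : Type u} {B : Type v} {C : Type*} [Group A] [Group B] [Group C]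
    (p : A →* B) (q : A →* C) (hp : Function.Surjective p) (hq : Function.Surjective q)
    (h : ∀ x, p x = 1 ↔ q x = 1) : ∃ e : B ≃* C, ∀ x, e (p x) = q x := by
  have hk : p.ker = q.ker := by
    ext x
    exact h x
  refine ⟨((QuotientGroup.quotientKerEquivOfSurjective p hp).symm.trans
    (QuotientGroup.quotientMulEquivOfEq hk)).trans
      (QuotientGroup.quotientKerEquivOfSurjective q hq), ?_⟩
  intro x
  have h1 : (QuotientGroup.quotientKerEquivOfSurjective p hp).symm (p x) = (x : A ⧸ p.ker) := by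
    rw [MulEquiv.symm_apply_eq]
    rfl
  rw [MulEquiv.trans_apply, MulEquiv.trans_apply, h1]
  rfl

section

variable {Ω : Type u} [Field Ω] (T : QStr.{v}) (E : ℕ → Type u) [∀ n, Field (E n)]
  (j : ∀ n, E n →+* E (n + 1)) (ι : ∀ n, E n →+* Ω)

/-- The maps from the bottom field of the tower. -/
noncomputable def bot : ∀ n, E 0 →+* E n
  | 0 => RingHom.id _
  | n + 1 => (j n).comp (bot n)

/-- The union of a tower of fields. -/
theorem limit (hι : ∀ n, (ι (n + 1)).comp (j n) = ι n)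
    (π : ∀ n, SqClass (E n) →* T.G) (hsurj : Function.Surjective (π 0))
    (hcomp : ∀ n x, π (n + 1) (mp (j n) x) = π n x)
    (hkill : ∀ n x, π n x = 1 → mp (j n) x = 1)
    (hsplit : ∀ n x y, FieldSplit (E n) x y → T.Split (π n x) (π n y))
    (hsplit' : ∀ a b, T.Split a b → ∃ x y, π 0 x = a ∧ π 0 y = b ∧ FieldSplit (E 0) x y)
    (hneg : π 0 (sqClass (-1)) = T.neg) :
    ∃ (K : Type u) (_ : Field K) (_ : E 0 →+* K), Nonempty (T.Iso (QStr.ofField K)) := by
  have hmono : Monotone (fun n => (ι n).fieldRange) := by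
    apply monotone_nat_of_le_succ
    rintro n _ ⟨x, rfl⟩
    refine ⟨j n x, ?_⟩
    rw [← hι n]
    rfl
  let K : Subfield Ω := ⨆ n, (ι n).fieldRange
  have hmem : ∀ x, x ∈ K ↔ ∃ n, x ∈ (ι n).fieldRange := fun x =>
    Subfield.mem_iSup_of_directed hmono.directed_le
  let κ : ∀ n, E n →+* K := fun n => (ι n).codRestrict K (fun x => (hmem _).2 ⟨n, x, rfl⟩)
  have hκι : ∀ n x, ((κ n x : K) : Ω) = ι n x := fun n x => rfl
  have hκ : ∀ n x, κ (n + 1) (j n x) = κ n x := by
    intro n x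
    apply Subtype.ext
    rw [hκι, hκι, ← hι n]
    rfl
  have hκb : ∀ n x, κ n (bot E j n x) = κ 0 x := by
    intro n
    induction n with
    | zero => intro x; rfl
    | succ n ih =>
      intro x
      show κ (n + 1) (j n (bot E j n x)) = κ 0 x
      rw [hκ, ih]
  have hrep : ∀ x : K, ∃ n y, κ n y = x := by
    intro x
    obtain ⟨n, y, hy⟩ := (hmem x).1 x.2
    exact ⟨n, y, Subtype.ext hy⟩
  have hrep2 : ∀ x y : K, ∃ n a b, κ n a = x ∧ κ n b = y := by
    intro x y
    obtain ⟨n, hx⟩ := (hmem x).1 x.2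
    obtain ⟨m, hy⟩ := (hmem y).1 y.2
    obtain ⟨a, ha⟩ := hmono (le_max_left n m) hx
    obtain ⟨b, hb⟩ := hmono (le_max_right n m) hy
    exact ⟨max n m, a, b, Subtype.ext ha, Subtype.ext hb⟩
  have hπb : ∀ n x, π n (mp (bot E j n) x) = π 0 x := by
    intro n
    induction n with
    | zero => intro x; exact congrArg (π 0) (mp_id x)
    | succ n ih =>
      intro x
      show π (n + 1) (mp ((j n).comp (bot E j n)) x) = π 0 x
      rw [mp_comp, hcomp, ih]
  have hmpκ : ∀ n x, mp (κ (n + 1)) (mp (j n) x) = mp (κ n) x := by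
    intro n x
    rw [← mp_comp]
    congr 1
    congr 1
    ext y
    exact congrArg Subtype.val (hκ n y)
  have hmpb : ∀ n x, mp (κ n) (mp (bot E j n) x) = mp (κ 0) x := by
    intro n x
    rw [← mp_comp]
    congr 1
    congr 1
    ext y
    exact congrArg Subtype.val (hκb n y)
  -- every class comes from the bottom
  have f1 : ∀ n (x : SqClass (E n)), ∃ x₀, mp (κ 0) x₀ = mp (κ n) x ∧ π 0 x₀ = π n x := by
    intro n x
    obtain ⟨x₀, hx₀⟩ := hsurj (π n x)
    refine ⟨x₀, ?_, hx₀⟩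
    have h1 : π n (mp (bot E j n) x₀ * x⁻¹) = 1 := by
      rw [map_mul, map_inv, hπb, hx₀, mul_inv_cancel]
    have h2 := hkill n _ h1
    rw [map_mul, map_inv, mul_inv_eq_one] at h2
    rw [← hmpb n, ← hmpκ n, ← hmpκ n, h2]
  have f2 : ∀ x, π 0 x = 1 ↔ mp (κ 0) x = 1 := by
    intro x
    constructor
    · intro h
      rw [← hmpκ 0, hkill 0 x h, map_one]
    · intro h
      obtain ⟨x, rfl⟩ := exists_rep x
      obtain ⟨t, ht⟩ := (mp_one_iff _ _).1 h
      obtain ⟨n, s, rfl⟩ := hrep t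
      rw [← hκb n, ← map_pow] at ht
      have h1 : mp (bot E j n) (sqClass x) = 1 := (mp_one_iff _ _).2 ⟨s, (κ n).injective ht⟩
      rw [← hπb n, h1, map_one]
  have f3 : Function.Surjective (mp (κ 0)) := by
    intro z
    obtain ⟨z, rfl⟩ := exists_rep z
    obtain ⟨n, y, hy⟩ := hrep (z : K)
    have hy0 : y ≠ 0 := by
      rintro rfl
      rw [map_zero] at hy
      exact z.ne_zero hy.symm
    obtain ⟨x₀, hx₀, -⟩ := f1 n (sqClass (Units.mk0 y hy0))
    refine ⟨x₀, hx₀.trans ?_⟩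
    rw [mp_mk]
    congr 1
    ext
    exact congrArg Subtype.val hy
  obtain ⟨e, he⟩ := exists_equiv (π 0) (mp (κ 0)) hsurj f3 f2
  refine ⟨K, inferInstance, κ 0, ⟨⟨e, ?_, ?_⟩⟩⟩
  · rw [← hneg]
    exact (he _).trans (mp_neg _)
  · intro a b
    obtain ⟨x, rfl⟩ := hsurj a
    obtain ⟨y, rfl⟩ := hsurj b
    show T.Split (π 0 x) (π 0 y) ↔ FieldSplit K (e (π 0 x)) (e (π 0 y))
    rw [he, he]
    constructor
    · intro h
      obtain ⟨x', y', hx, hy, h1⟩ := hsplit' _ _ h
      have ex : mp (κ 0) x' = mp (κ 0) x := by rw [← he, ← he, hx]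
      have ey : mp (κ 0) y' = mp (κ 0) y := by rw [← he, ← he, hy]
      rw [← ex, ← ey]
      exact mp_split _ h1
    · intro h
      obtain ⟨x, rfl⟩ := exists_rep x
      obtain ⟨y, rfl⟩ := exists_rep y
      have h1 : FieldSplit K (sqClass (Units.map ((κ 0 : E 0 →+* K) : E 0 →* K) x))
        (sqClass (Units.map ((κ 0 : E 0 →+* K) : E 0 →* K) y)) := h
      rw [split_mk] at h1
      obtain ⟨X, Y, hXY⟩ := h1
      obtain ⟨n, X', Y', rfl, rfl⟩ := hrep2 X Y
      have h2 : κ 0 (x : E 0) * κ n X' ^ 2 + κ 0 (y : E 0) * κ n Y' ^ 2 = 1 := hXY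
      rw [← hκb n, ← hκb n, ← map_pow, ← map_pow, ← map_mul, ← map_mul, ← map_add,
        ← map_one (κ n)] at h2
      have h3 : FieldSplit (E n) (mp (bot E j n) (sqClass x)) (mp (bot E j n) (sqClass y)) := by
        rw [mp_mk, mp_mk, split_mk]
        exact ⟨X', Y', (κ n).injective h2⟩
      have h4 := hsplit n _ _ h3
      rwa [hπb, hπb] at h4

end

end Pool.Agent.WETC
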